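import Pool.Agent.PIP.Fin
import Pool.Agent.RVM.Fin

set_option autoImplicit false

open MeasureTheory Cardinal

/-! # Plebanek's question on Pettis integrals with separable range cannot be decided in ZFC

(1) There are a Banach space with the Pettis integrability property for all complete probability
spaces, except possibly for those which carry a total diffuse distribution (`NoTotal`), and a Pettis
integrable function with values in it whose range is not separable; so the question has a negative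
answer unless some probability measure on all subsets of `ℝ` vanishes at points.
(2) If `2^ℵ₀` is real-valued measurable, the question has a positive answer. -/

namespace Pool.Agent.Results.MP_399dec_an.Independence

/-- `f` is Pettis integrable -/
def Pettis {Ω X : Type} [MeasurableSpace Ω] [NormedAddCommGroup X] [NormedSpace ℝ X]
    (μ : Measure Ω) (f : Ω → X) : Prop :=
  (∀ φ : X →L[ℝ] ℝ, Integrable (fun ω => φ (f ω)) μ) ∧
    ∀ A : Set Ω, MeasurableSet A →
      ∃ x : X, ∀ φ : X →L[ℝ] ℝ, φ x = ∫ ω in A, φ (f ω) ∂μ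

/-- `g` is scalarly measurable and scalarly bounded -/
def ScalarlyBdd {Ω X : Type} [MeasurableSpace Ω] [NormedAddCommGroup X] [NormedSpace ℝ X]
    (μ : Measure Ω) (g : Ω → X) : Prop :=
  (∀ φ : X →L[ℝ] ℝ, Measurable (fun ω => φ (g ω))) ∧
    ∃ M : ℝ, ∀ φ : X →L[ℝ] ℝ, ∀ᵐ ω ∂μ, |φ (g ω)| ≤ M * ‖φ‖

/-- the set of all integrals of `f` over measurable sets -/
def Range {Ω X : Type} [MeasurableSpace Ω] [NormedAddCommGroup X] [NormedSpace ℝ X]
    (μ : Measure Ω) (f : Ω → X) : Set X :=
  {x : X | ∃ A : Set Ω, MeasurableSet A ∧ ∀ φ : X →L[ℝ] ℝ, φ x = ∫ ω in A, φ (f ω) ∂μ}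

/-- `μ` carries no total diffuse distribution: if `E` is a set and `γ` a real function such that
`E ∩ γ⁻¹(A)` is measurable for every set `A` of reals and `E ∩ γ⁻¹{x}` is `μ`-null for every real
`x`, then `E` is `μ`-null. -/
def NoTotal {Ω : Type} [MeasurableSpace Ω] (μ : Measure Ω) : Prop :=
  ∀ (E : Set Ω) (γ : Ω → ℝ), (∀ A : Set ℝ, MeasurableSet (E ∩ γ ⁻¹' A)) →
    (∀ x : ℝ, μ (E ∩ γ ⁻¹' {x}) = 0) → μ E = 0

/-- Plebanek's question Q1: if `X` is a Banach space with the Pettis integrability property then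
every Pettis integrable function with values in `X` has norm separable range -/
def Q1 : Prop :=
  ∀ (X : Type) [NormedAddCommGroup X] [NormedSpace ℝ X] [CompleteSpace X],
    (∀ (Ω : Type) [MeasurableSpace Ω] (μ : Measure Ω), IsProbabilityMeasure μ → μ.IsComplete →
      ∀ g : Ω → X, ScalarlyBdd μ g → Pettis μ g) →
    ∀ (Ω : Type) [MeasurableSpace Ω] (μ : Measure Ω), IsProbabilityMeasure μ → μ.IsComplete →
      ∀ f : Ω → X, Pettis μ f → TopologicalSpace.IsSeparable (Range μ f)

theorem part1 :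
    ∃ (X : Type) (_ : NormedAddCommGroup X) (_ : NormedSpace ℝ X) (_ : CompleteSpace X),
      (∀ (Ω : Type) [MeasurableSpace Ω] (μ : Measure Ω), IsProbabilityMeasure μ → μ.IsComplete →
        NoTotal μ → ∀ g : Ω → X, ScalarlyBdd μ g → Pettis μ g) ∧
      ∃ (Ω : Type) (_ : MeasurableSpace Ω) (μ : Measure Ω) (f : Ω → X),
        IsProbabilityMeasure μ ∧ μ.IsComplete ∧ Pettis μ f ∧
        ¬ TopologicalSpace.IsSeparable (Range μ f) := by
  obtain ⟨X, i1, i2, i3, h, Ω, mΩ, μ, f, h1, h2, h3, h4, h5⟩ := Pool.Agent.PIP.final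
  exact ⟨X, i1, i2, i3, fun Ω' _ μ' h1' h2' h3' g hg => h Ω' μ' h1' h2' h3' g hg.1 hg.2,
    Ω, mΩ, μ, f, h1, h2, ⟨h3, h4⟩, h5⟩

/-- if no probability measure on all subsets of `ℝ` vanishes at points, then no finite measure
carries a total diffuse distribution -/
theorem noTotal_of (hNR : ∀ m : @Measure ℝ ⊤, m Set.univ = 1 → ∃ x, m {x} ≠ 0) {Ω : Type}
    [MeasurableSpace Ω] (μ : Measure Ω) (hμ : IsProbabilityMeasure μ) : NoTotal μ := by
  intro E γ h1 h2
  by_contra hE
  have hEm : MeasurableSet E := by simpa using h1 Set.univ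
  let m0 : @Measure ℝ ⊤ := @Measure.ofMeasurable ℝ ⊤ (fun A _ => μ (E ∩ γ ⁻¹' A)) (by simp) (by
    intro f hf hd
    rw [Set.preimage_iUnion, Set.inter_iUnion]
    exact measure_iUnion (fun i j hij => ((hd hij).preimage γ).mono Set.inter_subset_right
      Set.inter_subset_right) fun i => h1 _)
  have hm0 : ∀ A : Set ℝ, m0 A = μ (E ∩ γ ⁻¹' A) := fun A =>
    @Measure.ofMeasurable_apply ℝ ⊤ _ _ _ A trivial
  have hu : m0 Set.univ = μ E := by rw [hm0]; simp
  obtain ⟨x, hx⟩ := hNR ((μ E)⁻¹ • m0) (by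
    rw [Measure.smul_apply, hu, smul_eq_mul, ENNReal.inv_mul_cancel hE (measure_ne_top μ E)])
  apply hx
  rw [Measure.smul_apply, hm0, h2, smul_zero]

/-- `2^ℵ₀` is real-valued measurable: some probability measure on all subsets of `ℝ` vanishes at
points and the union of fewer than `2^ℵ₀` null sets is null -/
def RealValuedMeasurable : Prop :=
  ∃ m : @Measure ℝ ⊤, m Set.univ = 1 ∧ (∀ x, m {x} = 0) ∧
    ∀ S : Set (Set ℝ), #S < 𝔠 → (∀ A ∈ S, m A = 0) → m (⋃₀ S) = 0

theorem part2 (h : RealValuedMeasurable) : Q1 := by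
  intro X _ _ _ hX Ω _ μ hμ hc f hf
  exact Pool.Agent.RVM.final h (fun Ω' _ μ' h1 h2 g h3 h4 => hX Ω' μ' h1 h2 g ⟨h3, h4⟩) μ hμ f hf

/-- **Theorem.** (1) There are a Banach space `X` and a Pettis integrable function with values in
`X` whose range is not separable, such that every scalarly measurable, scalarly bounded function
with values in `X` on a complete probability space which carries no total diffuse distribution is
Pettis integrable; consequently a positive answer to Q1 yields a probability measure defined on all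
subsets of `ℝ` and vanishing at points.  (2) If `2^ℵ₀` is real-valued measurable, the answer to Q1
is positive. -/
theorem result :
    ((∃ (X : Type) (_ : NormedAddCommGroup X) (_ : NormedSpace ℝ X) (_ : CompleteSpace X),
      (∀ (Ω : Type) [MeasurableSpace Ω] (μ : Measure Ω), IsProbabilityMeasure μ → μ.IsComplete →
        NoTotal μ → ∀ g : Ω → X, ScalarlyBdd μ g → Pettis μ g) ∧
      ∃ (Ω : Type) (_ : MeasurableSpace Ω) (μ : Measure Ω) (f : Ω → X),
        IsProbabilityMeasure μ ∧ μ.IsComplete ∧ Pettis μ f ∧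
        ¬ TopologicalSpace.IsSeparable (Range μ f)) ∧
    (Q1 → ∃ m : @Measure ℝ ⊤, m Set.univ = 1 ∧ ∀ x, m {x} = 0)) ∧
    (RealValuedMeasurable → Q1) := by
  refine ⟨⟨part1, fun hQ => ?_⟩, part2⟩
  by_contra hcon
  push Not at hcon
  obtain ⟨X, i1, i2, i3, h, Ω, mΩ, μ, f, h1, h2, h3, h4⟩ := part1
  exact h4 (hQ X (fun Ω' _ μ' h1' h2' g hg => h Ω' μ' h1' h2' (noTotal_of hcon μ' h1') g hg)
    Ω μ h1 h2 f h3)

end Pool.Agent.Results.MP_399dec_an.Independence
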